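import Pool.Agent.PCO.StmtsB
import Pool.Agent.Helper60_PFS.Simp

/-!
# Squad NTS (PCO), row ACN (helper39): `a` is determined by `U`
-/

set_option autoImplicit false

open Matrix Filter Topology

namespace Pool.Agent.PCO.H39

open Pool.Agent.PFS Pool.Agent.PFJ

/-- the apex and the elements of the triangle are in the limit cone and in the closed cone -/
theorem apex {n : ℕ} {C : Set (V n)} {Γ : Subgroup (GL (Fin n) ℝ)}
    {U : Submodule ℝ (V n)} {v : V n} (hB : Bx C Γ U v) : v ∈ LamC C Γ ∧ v ∈ closure C := by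
  obtain ⟨e, -, e', -, hP⟩ := hB.pes
  have h1 := hP.2 2
  have h2 := PES.cl hP.1 2
  exact ⟨h1, h2⟩

theorem acn (hBF2 : Bf2Stmt) (hPRJ : PrjStmt) (hPRF : PrfStmt) (hSPF : SpfStmt)
    (hPVA : PvaStmt) : AcnStmt := by
  intro n C Γ d h U v v' a w w' b ρ σ S S'
  have hC : CC C Γ := h.toCC
  have hP : PCone C := hC.toPCone
  obtain ⟨p, hp⟩ := hPRJ n C Γ d h U v S.box S.dim
  obtain ⟨p', hp'⟩ := hPRJ n C Γ d h U w S'.box S'.dim
  obtain ⟨κ₁, hκ₁⟩ := hPVA n C Γ d h U v v' a ρ S w p S'.box hp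
  obtain ⟨κ₂, hκ₂⟩ := hPVA n C Γ d h U v v' a ρ S w' p S'.box' hp
  obtain ⟨⟨M₀, hM₀, hM₀c⟩, -, ⟨hind, hker⟩, -, -⟩ := hSPF n C Γ d h U v v' a ρ S
  obtain ⟨hpv, -, -, hspan, -, -⟩ := hPRF n C Γ d h U v S.box S.dim p hp
  have hdec := hspan v (v' - ρ • a) hpv (hker p hp) hind
  obtain ⟨hIs, -, -, hout, -, -, -⟩ := hBF2 n C Γ hC h.maxc U v S.box
  obtain ⟨c, hc, hcne⟩ := hout a 0
  have ha := S.bd
  have hac : Ind2 a c := by
    intro α β hab
    have hβ : β = 0 := by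
      by_contra hβ
      refine hcne (-(α / β)) 0 ?_
      have h1 : β • c = -(α • a) := by
        rw [eq_neg_iff_add_eq_zero, add_comm]
        exact hab
      have h2 : c = β⁻¹ • (β • c) := by rw [smul_smul, inv_mul_cancel₀ hβ, one_smul]
      rw [h2, h1, smul_zero, add_zero, smul_neg, smul_smul, ← neg_smul]
      congr 1
      field_simp
    subst hβ
    rw [zero_smul, add_zero] at hab
    rcases smul_eq_zero.1 hab with h1 | h1
    · exact ⟨h1, rfl⟩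
    · exact absurd h1 ha.2.2.1
  have hIsp := hIs a c ha hc hac
  obtain ⟨φ, hφ1, hφ2, hφ3, -⟩ := Pool.Agent.PFS.H60.fun_ n C hP (Fin 3) ![a, c, v] 1 hIsp.1
  have hφa : φ a = 0 := hφ3 0 (by decide)
  have hφv : φ v = 0 := hφ3 2 (by decide)
  have hv' := apex S.box'
  have hφv' : φ v' = 0 := by
    have h1 := hφ2 _ hv'.2
    have h2 := hφ2 _ hM₀c
    rw [map_sub, map_smul, map_add, hφa, hφv, add_zero, smul_zero, zero_sub] at h2
    linarith
  have hφx : ∀ x : V n, (∃ κ : ℝ, p x = κ • a) → φ x = 0 := by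
    rintro x ⟨κ, hκ⟩
    obtain ⟨s, t, hst⟩ := hdec x
    rw [hκ] at hst
    rw [hst]
    simp only [map_add, map_smul, map_sub, hφa, hφv, hφv', smul_zero, sub_zero, add_zero]
  have hφw := hφx w ⟨κ₁, hκ₁⟩
  have hφw' := hφx w' ⟨κ₂, hκ₂⟩
  have hnot : a + w + w' ∉ C := by
    intro hx
    have h1 := hφ1 _ hx
    rw [map_add, map_add, hφa, hφw, hφw'] at h1
    norm_num at h1
  have hw' := apex S'.box'
  obtain ⟨-, -, -, -, -, -, hface⟩ := hBF2 n C Γ hC h.maxc U w S'.box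
  obtain ⟨M, hM, hMc⟩ := hface a ha w' hw'.1 hnot
  obtain ⟨-, -, -, -, hproj, -⟩ := hPRF n C Γ d h U w S'.box S'.dim p' hp'
  obtain ⟨κ, -, hκ⟩ := hproj a ha w' hw'.2 M hMc
  have h1 := S'.prj p' hp'
  refine ⟨σ⁻¹ * κ, ?_⟩
  rw [mul_smul, ← hκ, h1, smul_smul, inv_mul_cancel₀ S'.pos.ne', one_smul]

end Pool.Agent.PCO.H39
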